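import Pool.Agent.K1H42.HP.Defs
import Pool.Agent.K1H42.HP.All

/-!
# MP_e960f8_co, Q1: `h_q(n, k) = [k + 1]_q` for all `k ≥ 1000` and all `n ≥ 2k + 1`, every `q`
-/

namespace Pool.Agent.Results.MP_e960f8_co.HighPointsExact

open Pool.Agent.K1H42.HP.Final

/-- Let `F` be a finite field, `k ≥ 1000`, `n ≥ 2k + 1` and `V` an `n`-dimensional vector space over
`F`.  The maximum number of high points of an intersecting family of `k`-dimensional subspaces of
`V` is `[k + 1]_q = (q ^ (k + 1) - 1) / (q - 1)`. -/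
theorem result (F : Type) [Field F] [Finite F] (k n : ℕ) (hk : 1000 ≤ k) (hn : 2 * k + 1 ≤ n)
    (V : Type) [AddCommGroup V] [Module F V] (hV : Module.finrank F V = n) :
    IsGreatest {h : ℕ | ∃ 𝓕 : Set (Submodule F V), IsIntersecting k 𝓕 ∧
      h = (highPoints n k 𝓕).ncard} (num F (k + 1)) := by
  constructor
  · obtain ⟨𝓕, h1, h2⟩ := Pool.Agent.K1H42.HP.lower_all F n k (by omega) hn V hV
    exact ⟨𝓕, h1, le_antisymm h2
      (Pool.Agent.K1H42.HP.upper_all F n k hk hn V hV 𝓕 h1)⟩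
  · rintro h ⟨𝓕, h1, rfl⟩
    exact Pool.Agent.K1H42.HP.upper_all F n k hk hn V hV 𝓕 h1

end Pool.Agent.Results.MP_e960f8_co.HighPointsExact
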